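import Pool.Agent.H56.G3.TI

/-!
# Theorem (G), MP_c59857_nt: matching of two close sums with separated frequencies (row INV)
-/

set_option autoImplicit false

namespace Pool.Agent.H31.G3

open Finset Pool.Agent.H6.N4D Pool.Agent.H93.EB Pool.Agent.H93.GS Pool.Agent.H56.G3

lemma d2_one (N n : ℕ) (g h : Ex) :
    d2 1 N n g h = (∑ m ∈ Ioc n (n + N), ‖g.f m - h.f m‖ ^ 2) / N := by
  unfold d2 ar
  rw [Finset.filter_true_of_mem fun m _ => one_dvd m]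
  simp

/-- The difference of the correlations of two functions. -/
lemma cf_sub (N n : ℕ) (F G : ℕ → ℂ) (β : ℝ) (hN : 1 ≤ N) :
    ‖cf N n F β - cf N n G β‖ ^ 2 ≤ (∑ m ∈ Ioc n (n + N), ‖F m - G m‖ ^ 2) / N := by
  have hN' : (0 : ℝ) < N := by exact_mod_cast hN
  have h1 : cf N n F β - cf N n G β =
      (∑ m ∈ Ioc n (n + N), (F m - G m) * ee (-(β * m))) / N := by
    unfold cf
    rw [← sub_div, ← Finset.sum_sub_distrib]
    congr 1
    exact Finset.sum_congr rfl fun m _ => by ring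
  have h2 : ‖∑ m ∈ Ioc n (n + N), (F m - G m) * ee (-(β * m))‖ ≤
      ∑ m ∈ Ioc n (n + N), ‖F m - G m‖ := by
    refine (norm_sum_le _ _).trans (le_of_eq (Finset.sum_congr rfl fun m _ => ?_))
    rw [norm_mul, norm_ee, mul_one]
  have h3 : (∑ m ∈ Ioc n (n + N), ‖F m - G m‖) ^ 2 ≤
      N * ∑ m ∈ Ioc n (n + N), ‖F m - G m‖ ^ 2 := by
    have := sq_sum_le_card_mul_sum_sq (s := Ioc n (n + N)) (f := fun m => ‖F m - G m‖)
    simpa using this
  rw [h1, norm_div, Complex.norm_natCast, div_pow, div_le_div_iff₀ (by positivity) hN']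
  have h4 : ‖∑ m ∈ Ioc n (n + N), (F m - G m) * ee (-(β * m))‖ ^ 2 ≤
      N * ∑ m ∈ Ioc n (n + N), ‖F m - G m‖ ^ 2 :=
    (pow_le_pow_left₀ (norm_nonneg _) h2 2).trans h3
  calc _ ≤ (N * ∑ m ∈ Ioc n (n + N), ‖F m - G m‖ ^ 2) * N :=
        mul_le_mul_of_nonneg_right h4 hN'.le
    _ = _ := by ring

lemma norm_c_le_nm (g : Ex) (i : ℕ) (hi : i < g.k) : ‖g.c i‖ ≤ g.nm :=
  Finset.single_le_sum (f := fun i => ‖g.c i‖) (fun _ _ => norm_nonneg _)
    (Finset.mem_range.2 hi)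

lemma nm_nonneg (g : Ex) : 0 ≤ g.nm := Finset.sum_nonneg fun _ _ => norm_nonneg _

/-- INV. -/
theorem pf_INV (_hRG : T_RG) (hIC : T_IC) (hII : T_II) (hIF : T_IF) : T_INV := by
  intro A κp e hA hκp he
  obtain ⟨δ₁, N₁, hδ₁, hIF'⟩ := hIF A κp e hA hκp he
  obtain ⟨L₁, hL₁⟩ : ∃ L₁ : ℝ, L₁ = 8 * A / κp := ⟨_, rfl⟩
  have hL₁p : 0 < L₁ := by rw [hL₁]; positivity
  obtain ⟨Lam, hLam⟩ : ∃ Lam : ℝ, Lam = 1 + 2 * L₁ + 64 * A ^ 2 / δ₁ := ⟨_, rfl⟩
  have hq : 0 < 64 * A ^ 2 / δ₁ := by positivity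
  have hLam1 : 1 ≤ Lam := by rw [hLam]; linarith
  have hLam0 : 0 < Lam := by linarith
  have hLam2 : 2 * L₁ ≤ Lam := by rw [hLam]; linarith
  have hLam3 : 64 * A ^ 2 / δ₁ ≤ Lam := by rw [hLam]; linarith
  refine ⟨Lam, min (δ₁ / 2) ((κp / 2) ^ 2), max 1 N₁, hLam1, lt_min (by positivity)
    (by positivity), ?_⟩
  intro N n g h hN hg hh hSg hSh hd i hi hci
  have hN1 : 1 ≤ N := le_trans (le_max_left _ _) hN
  have hN2 : N₁ ≤ N := le_trans (le_max_right _ _) hN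
  have hN0 : (0 : ℝ) < N := by exact_mod_cast hN1
  have hd1 : d2 1 N n g h ≤ δ₁ / 2 := hd.trans (min_le_left _ _)
  have hd2 : d2 1 N n g h ≤ (κp / 2) ^ 2 := hd.trans (min_le_right _ _)
  have hcA : ‖g.c i‖ ≤ A := (norm_c_le_nm g i hi).trans hg
  have hκA : κp ≤ A := hci.trans hcA
  -- a frequency of `h` near the frequency of `g`
  have hj : ∃ j < h.k, nd (g.a i - h.a j) < L₁ / N := by
    by_contra hcon
    push Not at hcon
    have h1 : ‖cf N n h.f (g.a i)‖ ≤ h.nm / L₁ :=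
      (hIC h N n L₁ (g.a i) hN1 hL₁p).1 fun j hj => by
        rw [nd_sub_comm]
        exact hcon j hj
    have h2 : ‖cf N n g.f (g.a i) - g.c i‖ ≤ g.nm / Lam :=
      (hIC g N n Lam (g.a i) hN1 hLam0).2 i hi fun j hj hji => hSg j hj i hi hji
    have h3 := cf_sub N n g.f h.f (g.a i) hN1
    rw [← d2_one] at h3
    have h4 : ‖cf N n g.f (g.a i) - cf N n h.f (g.a i)‖ ≤ κp / 2 :=
      (abs_le_of_sq_le_sq' (h3.trans hd2) (by positivity)).2
    have h5 : h.nm / L₁ ≤ κp / 8 := by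
      rw [hL₁, div_div_eq_mul_div, div_le_div_iff₀ (by positivity) (by norm_num)]
      nlinarith
    have h6 : g.nm / Lam ≤ κp / 8 := by
      rw [div_le_iff₀ hLam0]
      have : κp * L₁ = 8 * A := by rw [hL₁]; field_simp
      nlinarith
    have h7 : g.c i = -(cf N n g.f (g.a i) - g.c i) +
        (cf N n g.f (g.a i) - cf N n h.f (g.a i)) + cf N n h.f (g.a i) := by ring
    have h8 : ‖g.c i‖ ≤ ‖cf N n g.f (g.a i) - g.c i‖ +
        ‖cf N n g.f (g.a i) - cf N n h.f (g.a i)‖ + ‖cf N n h.f (g.a i)‖ := by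
      calc ‖g.c i‖ = ‖-(cf N n g.f (g.a i) - g.c i) +
        (cf N n g.f (g.a i) - cf N n h.f (g.a i)) + cf N n h.f (g.a i)‖ := by rw [← h7]
        _ ≤ ‖-(cf N n g.f (g.a i) - g.c i) +
            (cf N n g.f (g.a i) - cf N n h.f (g.a i))‖ + ‖cf N n h.f (g.a i)‖ := norm_add_le _ _
        _ ≤ ‖-(cf N n g.f (g.a i) - g.c i)‖ +
            ‖cf N n g.f (g.a i) - cf N n h.f (g.a i)‖ + ‖cf N n h.f (g.a i)‖ := by
          gcongr
          exact norm_add_le _ _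
        _ = _ := by rw [norm_neg]
    linarith
  obtain ⟨j, hj, hjn⟩ := hj
  refine ⟨j, hj, ?_⟩
  have hLN : L₁ / N ≤ Lam / 2 / N := by
    apply div_le_div_of_nonneg_right _ hN0.le
    linarith
  have hhalf : Lam / N = Lam / 2 / N + Lam / 2 / N := by ring
  have hnn : 0 ≤ Lam / 2 / (N : ℝ) := by positivity
  have k1 : ∀ i' < g.k, i' ≠ i → Lam / 2 / N ≤ nd (g.a i' - g.a i) ∧
      Lam / 2 / N ≤ nd (g.a i' - h.a j) := by
    intro i' hi' hne
    have s1 := hSg i' hi' i hi hne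
    refine ⟨by linarith, ?_⟩
    have s2 := nd_tri (g.a i') (h.a j) (g.a i)
    rw [nd_sub_comm (h.a j)] at s2
    linarith
  have k2 : ∀ j' < h.k, j' ≠ j → Lam / 2 / N ≤ nd (h.a j' - h.a j) ∧
      Lam / 2 / N ≤ nd (h.a j' - g.a i) := by
    intro j' hj' hne
    have s1 := hSh j' hj' j hj hne
    refine ⟨by linarith, ?_⟩
    have s2 := nd_tri (h.a j') (g.a i) (h.a j)
    linarith
  have k3 := hII g h N n i j (Lam / 2) (δ₁ / 2) hN1 (by positivity) hi hj k1 k2 hd1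
  have k4 : δ₁ / 2 + 4 * (g.nm + h.nm) ^ 2 / (Lam / 2) ≤ δ₁ := by
    have s1 : (g.nm + h.nm) ^ 2 ≤ (A + A) ^ 2 :=
      pow_le_pow_left₀ (add_nonneg (nm_nonneg g) (nm_nonneg h)) (add_le_add hg hh) 2
    have s2 : 4 * (g.nm + h.nm) ^ 2 / (Lam / 2) ≤ δ₁ / 2 := by
      rw [div_le_iff₀ (by positivity)]
      have s3 : 64 * A ^ 2 ≤ Lam * δ₁ := (div_le_iff₀ hδ₁).1 hLam3
      nlinarith
    linarith
  exact hIF' N n (g.c i) (h.c j) (g.a i) (h.a j) hN2 hci hcA (k3.trans k4)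

end Pool.Agent.H31.G3
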